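import Mathlib

set_option autoImplicit false

open MvPolynomial Filter

namespace Pool.Agent.P.MP_9d3c8a_al

noncomputable section

variable {F : Type} [Field F]

/-- Derivations of the polynomial ring moving only finitely many variables. -/
def W (F : Type) [Field F] :
    Submodule (MvPolynomial ℕ F) (Derivation F (MvPolynomial ℕ F) (MvPolynomial ℕ F)) where
  carrier := {d | Set.Finite {i : ℕ | d (X i) ≠ 0}}
  add_mem' := by
    intro a b ha hb
    refine (Set.Finite.union ha hb).subset ?_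
    intro i hi
    by_contra h
    simp only [Set.mem_union, Set.mem_ofPred_eq, not_or, not_not] at h
    apply hi
    simp [h.1, h.2]
  zero_mem' := by simp
  smul_mem' := by
    intro c a ha
    refine Set.Finite.subset ha ?_
    intro i hi h
    apply hi
    simp [h]

lemma mem_W {d : Derivation F (MvPolynomial ℕ F) (MvPolynomial ℕ F)} :
    d ∈ W F ↔ Set.Finite {i : ℕ | d (X i) ≠ 0} := Iff.rfl

lemma lie_mem_W {d e : Derivation F (MvPolynomial ℕ F) (MvPolynomial ℕ F)}
    (hd : d ∈ W F) (he : e ∈ W F) : ⁅d, e⁆ ∈ W F := by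
  rw [mem_W] at *
  refine (Set.Finite.union hd he).subset ?_
  intro i hi
  by_contra h
  simp only [Set.mem_union, Set.mem_ofPred_eq, not_or, not_not] at h
  apply hi
  simp [Derivation.commutator_apply, h.1, h.2]

/-- The bracket on `W`. -/
def br (d e : W F) : W F := ⟨⁅d.1, e.1⁆, lie_mem_W d.2 e.2⟩

lemma br_apply (d e : W F) (f : MvPolynomial ℕ F) :
    (br d e).1 f = d.1 (e.1 f) - e.1 (d.1 f) := rfl

lemma W_ext {d e : W F} (h : ∀ i, d.1 (X i) = e.1 (X i)) : d = e :=
  Subtype.ext (derivation_ext h)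

lemma W_ext' {d e : W F} (h : ∀ f, d.1 f = e.1 f) : d = e :=
  W_ext fun _ => h _

lemma br_smul_right (Y Z : W F) (f : MvPolynomial ℕ F) :
    br Y (f • Z) = Y.1 f • Z + f • br Y Z := by
  apply W_ext'
  intro g
  simp [br_apply]
  ring

lemma br_smul_left (Y Z : W F) (f : MvPolynomial ℕ F) :
    br (f • Z) Y + Y.1 f • Z = f • br Z Y := by
  apply W_ext'
  intro g
  simp [br_apply]
  ring

lemma br_swap {Y Z : W F} (h : br Z Y = 0) : br Y Z = 0 := by
  apply W_ext'
  intro g
  have := congrArg (fun d : W F => d.1 g) h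
  simp only [br_apply, ZeroMemClass.coe_zero, Derivation.coe_zero, Pi.zero_apply] at this ⊢
  linear_combination -this

/-- The partial derivative as an element of `W`. -/
def dd (j : ℕ) : W F := ⟨pderiv j, by
  rw [mem_W]
  refine (Set.finite_singleton j).subset ?_
  intro i hi
  by_contra h
  exact hi (pderiv_X_of_ne h)⟩

@[simp] lemma dd_apply (j : ℕ) (f : MvPolynomial ℕ F) : (dd j : W F).1 f = pderiv j f := rfl

lemma dd_ne_zero (j : ℕ) : (dd j : W F) ≠ 0 := by
  intro h
  have := congrArg (fun d : W F => d.1 (X j)) h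
  simp at this

lemma smul_dd_inj {j : ℕ} {f g : MvPolynomial ℕ F} (h : f • (dd j : W F) = g • dd j) : f = g := by
  have := congrArg (fun d : W F => d.1 (X j)) h
  simpa using this

lemma smul_eq_zero_W {f : MvPolynomial ℕ F} {Y : W F} (hY : Y ≠ 0) (h : f • Y = 0) : f = 0 := by
  by_contra hf
  apply hY
  apply W_ext
  intro i
  have := congrArg (fun d : W F => d.1 (X i)) h
  simpa [hf] using this

lemma der_pderiv_X (Y : W F) (j i : ℕ) : Y.1 (pderiv j (X i : MvPolynomial ℕ F)) = 0 := by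
  by_cases h : i = j
  · subst h; simp
  · rw [pderiv_X_of_ne h]; simp

/-- The variable `j` is not involved in `Y`. -/
def Far (Y : W F) (j : ℕ) : Prop := Y.1 (X j) = 0 ∧ ∀ i, pderiv j (Y.1 (X i)) = 0

lemma eventually_far (Y : W F) : ∀ᶠ j in cofinite, Far Y j := by
  have hY : Set.Finite {i : ℕ | Y.1 (X i) ≠ 0} := Y.2
  have h1 : ∀ᶠ j in cofinite, Y.1 (X j) = 0 := by
    rw [Filter.eventually_cofinite]; exact hY
  have h2 : ∀ᶠ j in cofinite, ∀ i ∈ {i : ℕ | Y.1 (X i) ≠ 0}, pderiv j (Y.1 (X i)) = 0 := by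
    rw [Filter.eventually_all_finite hY]
    intro i _
    rw [Filter.eventually_cofinite]
    refine (Finset.finite_toSet (Y.1 (X i)).vars).subset ?_
    intro j hj
    by_contra h
    exact hj (pderiv_eq_zero_of_notMem_vars h)
  filter_upwards [h1, h2] with j hj1 hj2
  refine ⟨hj1, fun i => ?_⟩
  by_cases h : Y.1 (X i) = 0
  · rw [h]; simp
  · exact hj2 i h

lemma br_dd_of_far {Y : W F} {j : ℕ} (h : ∀ i, pderiv j (Y.1 (X i)) = 0) : br (dd j) Y = 0 := by
  apply W_ext
  intro i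
  rw [br_apply, dd_apply, dd_apply, h i, der_pderiv_X]
  simp

lemma br_dd_dd (j k : ℕ) : br (dd j : W F) (dd k) = 0 := by
  apply br_dd_of_far
  intro i
  exact der_pderiv_X (dd j) k i

lemma br_Xdd_of_far {Y : W F} {j k : ℕ} (hj : Far Y j) (hk : Far Y k) :
    br ((X j : MvPolynomial ℕ F) • dd k) Y = 0 := by
  have := br_smul_left Y (dd k) (X j)
  rw [br_dd_of_far hk.2, hj.1] at this
  simpa using this

/-- Lie automorphisms of `W`. -/
structure Aut (F : Type) [Field F] where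
  e : W F ≃ₗ[F] W F
  hbr : ∀ x y, e (br x y) = br (e x) (e y)

/-- The inverse automorphism. -/
def Aut.symm (θ : Aut F) : Aut F where
  e := θ.e.symm
  hbr x y := by
    apply θ.e.injective
    rw [θ.hbr]
    simp

/-- The transported multiplication operator. -/
def T (θ : Aut F) (f : MvPolynomial ℕ F) (Y : W F) : W F := θ.e.symm (f • θ.e Y)

lemma e_T (θ : Aut F) (f : MvPolynomial ℕ F) (Y : W F) : θ.e (T θ f Y) = f • θ.e Y := by
  simp [T]

lemma stepA (θ : Aut F) (f : MvPolynomial ℕ F) (Z : W F) (h0 : br Z (dd 0) = 0)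
    (h1 : br Z (T θ f (dd 0)) = 0) : (θ.e Z).1 f = 0 := by
  have h2 := congrArg θ.e h1
  rw [θ.hbr, e_T, br_smul_right, ← θ.hbr, h0] at h2
  simp only [map_zero, smul_zero, add_zero] at h2
  refine smul_eq_zero_W ?_ h2
  intro h
  exact dd_ne_zero 0 (θ.e.map_eq_zero_iff.1 h)

lemma br_T (θ : Aut F) (f : MvPolynomial ℕ F) (Z Y : W F) (h : (θ.e Z).1 f = 0) :
    br Z (T θ f Y) = T θ f (br Z Y) := by
  apply θ.e.injective
  rw [θ.hbr, e_T, e_T, br_smul_right, h, θ.hbr]
  simp

lemma stepB (θ : Aut F) (f : MvPolynomial ℕ F) :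
    ∃ g : MvPolynomial ℕ F, ∀ᶠ k in cofinite, T θ f (dd k) = g • dd k := by
  have hS : ∀ᶠ j in cofinite, Far (dd 0 : W F) j ∧ Far (T θ f (dd 0)) j :=
    (eventually_far _).and (eventually_far _)
  obtain ⟨j, hj⟩ := hS.exists
  refine ⟨(T θ f (dd j)).1 (X j), ?_⟩
  filter_upwards [hS] with k hk
  have h1 : (θ.e (dd k)).1 f = 0 :=
    stepA θ f _ (br_dd_of_far hk.1.2) (br_dd_of_far hk.2.2)
  have h2 : (θ.e ((X j : MvPolynomial ℕ F) • dd k)).1 f = 0 :=
    stepA θ f _ (br_Xdd_of_far hj.1 hk.1) (br_Xdd_of_far hj.2 hk.2)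
  have h3 : br (dd k) (T θ f (dd j)) = 0 := by
    rw [br_T θ f _ _ h1, br_dd_dd]
    simp [T]
  have h4 := br_T θ f _ (dd j) h2
  have h5 := br_smul_left (T θ f (dd j)) (dd k) (X j)
  have h6 := br_smul_left (dd j : W F) (dd k) (X j)
  rw [h3, h4] at h5
  rw [br_dd_dd] at h6
  simp only [smul_zero, dd_apply, pderiv_X_self, one_smul] at h5 h6
  have h7 := congrArg (T θ f) h6
  have h8 : ∀ a b : W F, T θ f (a + b) = T θ f a + T θ f b := by
    intro a b
    simp [T]
  have h9 : T θ f 0 = 0 := by simp [T]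
  rw [h8, h9] at h7
  apply W_ext'
  intro g
  have e1 := congrArg (fun d : W F => d.1 g) h5
  have e2 := congrArg (fun d : W F => d.1 g) h7
  simp only [Submodule.coe_add, Derivation.add_apply, ZeroMemClass.coe_zero, Derivation.coe_zero,
    Pi.zero_apply] at e1 e2
  linear_combination e2 - e1

/-- The underlying function of the induced map on polynomials. -/
def psi0 (θ : Aut F) (f : MvPolynomial ℕ F) : MvPolynomial ℕ F := (stepB θ f).choose

lemma psi0_spec (θ : Aut F) (f : MvPolynomial ℕ F) :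
    ∀ᶠ k in cofinite, T θ f (dd k) = psi0 θ f • dd k := (stepB θ f).choose_spec

lemma psi0_unique (θ : Aut F) (f g : MvPolynomial ℕ F)
    (h : ∀ᶠ k in cofinite, T θ f (dd k) = g • dd k) : psi0 θ f = g := by
  obtain ⟨k, hk1, hk2⟩ := ((psi0_spec θ f).and h).exists
  exact smul_dd_inj (hk1.symm.trans hk2)

/-- The induced linear map on polynomials. -/
def psi (θ : Aut F) : MvPolynomial ℕ F →ₗ[F] MvPolynomial ℕ F where
  toFun := psi0 θ
  map_add' f g := by
    apply psi0_unique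
    filter_upwards [psi0_spec θ f, psi0_spec θ g] with k h1 h2
    rw [add_smul, ← h1, ← h2]
    simp [T, add_smul]
  map_smul' c f := by
    apply psi0_unique
    filter_upwards [psi0_spec θ f] with k h1
    rw [RingHom.id_apply, smul_assoc, ← h1]
    simp [T, smul_assoc]

lemma psi_one (θ : Aut F) : psi θ 1 = 1 := by
  apply psi0_unique
  filter_upwards with k
  simp [T]

lemma stepC (θ : Aut F) (Y : W F) (f : MvPolynomial ℕ F) :
    psi θ ((θ.e Y).1 f) = Y.1 (psi θ f) := by
  apply psi0_unique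
  filter_upwards [psi0_spec θ f, eventually_far Y] with k h1 h2
  have h3 : br Y (dd k) = 0 := br_swap (br_dd_of_far h2.2)
  have h4 := congrArg (br Y) h1
  rw [br_smul_right, h3] at h4
  simp only [smul_zero, add_zero] at h4
  change T θ ((θ.e Y).1 f) (dd k) = Y.1 (psi0 θ f) • dd k
  rw [← h4]
  apply θ.e.injective
  rw [θ.hbr, e_T, e_T, br_smul_right, ← θ.hbr, h3]
  simp

lemma stepC' (θ : Aut F) (Y : W F) (f : MvPolynomial ℕ F) :
    psi θ.symm (Y.1 f) = (θ.e Y).1 (psi θ.symm f) := by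
  have := stepC θ.symm (θ.e Y) f
  simpa [Aut.symm] using this

lemma endo_id (χ : MvPolynomial ℕ F → MvPolynomial ℕ F) (h1 : χ 1 = 1)
    (h : ∀ (Y : W F) (g : MvPolynomial ℕ F), χ (Y.1 g) = Y.1 (χ g)) (g : MvPolynomial ℕ F) :
    χ g = g := by
  have h2 := h (g • dd 0) (X 0)
  have h3 := h (dd 0) (X 0)
  simp only [dd_apply, pderiv_X_self, h1] at h3
  simp only [Submodule.coe_smul, Derivation.smul_apply, dd_apply, pderiv_X_self, smul_eq_mul,
    mul_one, ← h3] at h2
  exact h2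

lemma psi_psi_symm (θ : Aut F) (g : MvPolynomial ℕ F) : psi θ (psi θ.symm g) = g := by
  apply endo_id (fun g => psi θ (psi θ.symm g))
  · simp [psi_one]
  · intro Y g
    rw [stepC', stepC]

lemma symm_symm (θ : Aut F) : θ.symm.symm = θ := rfl

lemma psi_symm_psi (θ : Aut F) (g : MvPolynomial ℕ F) : psi θ.symm (psi θ g) = g :=
  psi_psi_symm θ.symm g

lemma psi_symm_mul (θ : Aut F) (a b : MvPolynomial ℕ F) :
    psi θ.symm (a * b) = psi θ.symm a * psi θ.symm b := by
  have key : ∀ (Y : W F) (a b : MvPolynomial ℕ F),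
      Y.1 (psi θ (psi θ.symm a * psi θ.symm b)) =
        psi θ (psi θ.symm a * psi θ.symm (Y.1 b)) + psi θ (psi θ.symm b * psi θ.symm (Y.1 a)) := by
    intro Y a b
    rw [← stepC, Derivation.leibniz, stepC', stepC']
    simp
  obtain ⟨j, hj⟩ := Infinite.exists_notMem_finset a.vars
  have hja : pderiv j a = 0 := pderiv_eq_zero_of_notMem_vars hj
  have h1 := key (b • dd j) a (X j)
  have h2 := key (dd j) a (X j)
  simp only [dd_apply, pderiv_X_self, hja, map_zero, mul_zero, add_zero, psi_one, mul_one,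
    psi_psi_symm] at h2
  simp only [Submodule.coe_smul, Derivation.smul_apply, dd_apply, pderiv_X_self, smul_eq_mul,
    mul_one, hja, mul_zero, map_zero, add_zero, h2] at h1
  rw [mul_comm a b, h1, psi_symm_psi]

/-- The induced algebra automorphism. -/
def phi (θ : Aut F) : MvPolynomial ℕ F ≃ₐ[F] MvPolynomial ℕ F :=
  AlgEquiv.ofLinearEquiv
    (LinearEquiv.ofLinearMap (psi θ.symm) (psi θ)
      (LinearMap.ext (psi_symm_psi θ)) (LinearMap.ext (psi_psi_symm θ)))
    (psi_one θ.symm) (psi_symm_mul θ)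

lemma phi_apply (θ : Aut F) (f : MvPolynomial ℕ F) : phi θ f = psi θ.symm f := rfl

lemma phi_symm_apply (θ : Aut F) (f : MvPolynomial ℕ F) : (phi θ).symm f = psi θ f := rfl

lemma conj (θ : Aut F) (Y : W F) (f : MvPolynomial ℕ F) :
    (θ.e Y).1 f = phi θ (Y.1 ((phi θ).symm f)) := by
  rw [phi_apply, phi_symm_apply, stepC', psi_symm_psi]

lemma pderiv_ne_zero_of_mem_vars [CharZero F] {n : ℕ} {p : MvPolynomial ℕ F} (h : n ∈ p.vars) :
    pderiv n p ≠ 0 := by
  rw [mem_vars_iff_mem_support] at h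
  obtain ⟨m, hm, hn⟩ := h
  intro h0
  have h1 := coeff_pderiv (i := n) p (m - Finsupp.single n 1)
  rw [h0] at h1
  have h2 : m - Finsupp.single n 1 + Finsupp.single n 1 = m := by
    apply tsub_add_cancel_of_le
    rwa [Finsupp.single_le_iff, Nat.succ_le_iff, pos_iff_ne_zero, ← Finsupp.mem_support_iff]
  rw [h2] at h1
  simp only [coeff_zero] at h1
  rcases mul_eq_zero.1 h1.symm with h3 | h3
  · exact (mem_support_iff.1 hm) h3
  · exact Nat.cast_add_one_ne_zero _ h3

lemma finite_vars [CharZero F] (θ : Aut F) (n : ℕ) :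
    Set.Finite {i : ℕ | n ∈ (psi θ (X i)).vars} := by
  have hY : Set.Finite {i : ℕ | (θ.e (dd n)).1 (X i) ≠ 0} := (θ.e (dd n)).2
  refine hY.subset ?_
  intro i hi h
  have h1 := stepC θ (dd n) (X i)
  rw [h] at h1
  simp only [map_zero, dd_apply] at h1
  exact pderiv_ne_zero_of_mem_vars hi h1.symm

theorem main :
    ∀ (F : Type) [Field F] [CharZero F]
      (θ : Derivation F (MvPolynomial ℕ F) (MvPolynomial ℕ F) →
            Derivation F (MvPolynomial ℕ F) (MvPolynomial ℕ F)),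
      (∀ d : Derivation F (MvPolynomial ℕ F) (MvPolynomial ℕ F),
          Set.Finite {i : ℕ | d (MvPolynomial.X i) ≠ 0} →
          Set.Finite {i : ℕ | θ d (MvPolynomial.X i) ≠ 0}) →
      (∀ e : Derivation F (MvPolynomial ℕ F) (MvPolynomial ℕ F),
          Set.Finite {i : ℕ | e (MvPolynomial.X i) ≠ 0} →
          ∃ d : Derivation F (MvPolynomial ℕ F) (MvPolynomial ℕ F),
            Set.Finite {i : ℕ | d (MvPolynomial.X i) ≠ 0} ∧ θ d = e) →
      (∀ d e : Derivation F (MvPolynomial ℕ F) (MvPolynomial ℕ F),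
          Set.Finite {i : ℕ | d (MvPolynomial.X i) ≠ 0} →
          Set.Finite {i : ℕ | e (MvPolynomial.X i) ≠ 0} →
          θ d = θ e → d = e) →
      (∀ d e : Derivation F (MvPolynomial ℕ F) (MvPolynomial ℕ F),
          Set.Finite {i : ℕ | d (MvPolynomial.X i) ≠ 0} →
          Set.Finite {i : ℕ | e (MvPolynomial.X i) ≠ 0} →
          θ (d + e) = θ d + θ e ∧ θ ⁅d, e⁆ = ⁅θ d, θ e⁆) →
      (∀ (c : F) (d : Derivation F (MvPolynomial ℕ F) (MvPolynomial ℕ F)),
          Set.Finite {i : ℕ | d (MvPolynomial.X i) ≠ 0} →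
          θ (c • d) = c • θ d) →
      ∃ φ : MvPolynomial ℕ F ≃ₐ[F] MvPolynomial ℕ F,
        (∀ n : ℕ, Set.Finite {i : ℕ | n ∈ (φ (MvPolynomial.X i)).vars} ∧
                  Set.Finite {i : ℕ | n ∈ (φ.symm (MvPolynomial.X i)).vars}) ∧
        ∀ d : Derivation F (MvPolynomial ℕ F) (MvPolynomial ℕ F),
          Set.Finite {i : ℕ | d (MvPolynomial.X i) ≠ 0} →
          ∀ f : MvPolynomial ℕ F, θ d f = φ (d (φ.symm f)) := by
  intro F _ _ θ h1 h2 h3 h4 h5
  let L : W F →ₗ[F] W F :=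
    { toFun := fun d => ⟨θ d.1, h1 d.1 d.2⟩
      map_add' := fun d e => Subtype.ext (h4 d.1 e.1 d.2 e.2).1
      map_smul' := fun c d => Subtype.ext (h5 c d.1 d.2) }
  have hL : Function.Bijective L := by
    constructor
    · intro d e h
      exact Subtype.ext (h3 d.1 e.1 d.2 e.2 (congrArg Subtype.val h))
    · intro e
      obtain ⟨d, hd, hde⟩ := h2 e.1 e.2
      exact ⟨⟨d, hd⟩, Subtype.ext hde⟩
  let Θ : Aut F :=
    { e := LinearEquiv.ofBijective L hL
      hbr := fun d e => Subtype.ext (h4 d.1 e.1 d.2 e.2).2 }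
  refine ⟨phi Θ, fun n => ⟨finite_vars Θ.symm n, finite_vars Θ n⟩, ?_⟩
  intro d hd f
  exact conj Θ ⟨d, hd⟩ f

end

end Pool.Agent.P.MP_9d3c8a_al
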