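import Pool.Agent.P.MP_9d3c8a_al.StabDefs

set_option autoImplicit false

open Filter

namespace Pool.Agent.WittInf

noncomputable section

/-- The data of a stable module of derivations. -/
structure St (k A : Type*) [CommRing k] [CommRing A] [Algebra k A] where
  L : Submodule A (Derivation k A A)
  lie : ∀ d ∈ L, ∀ e ∈ L, ⁅d, e⁆ ∈ L
  x : ℕ → A
  p : ℕ → L
  one : ∀ n, (p n).1 (x n) = 1
  far : ∀ d : L, ∀ᶠ n in atTop, d.1 (x n) = 0 ∧ ⁅(p n).1, d.1⁆ = 0

variable {k A B : Type*} [CommRing k] [CommRing A] [CommRing B] [Algebra k A] [Algebra k B]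

/-- The commutator inside the module. -/
def St.br (U : St k A) (d e : U.L) : U.L := ⟨⁅d.1, e.1⁆, U.lie _ d.2 _ e.2⟩

section One

variable {U : St k A}

lemma br_apply (d e : U.L) (f : A) : (U.br d e).1 f = d.1 (e.1 f) - e.1 (d.1 f) := rfl

lemma L_ext {d e : U.L} (h : ∀ f, d.1 f = e.1 f) : d = e :=
  Subtype.ext (Derivation.ext h)

lemma br_smul_right (Y Z : U.L) (f : A) : U.br Y (f • Z) = Y.1 f • Z + f • U.br Y Z := by
  apply L_ext
  intro g
  simp [br_apply]
  ring

lemma br_smul_left (Y Z : U.L) (f : A) : U.br (f • Z) Y + Y.1 f • Z = f • U.br Z Y := by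
  apply L_ext
  intro g
  simp [br_apply]
  ring

lemma br_swap {Y Z : U.L} (h : U.br Z Y = 0) : U.br Y Z = 0 := by
  apply L_ext
  intro g
  have := congrArg (fun d : U.L => d.1 g) h
  simp only [br_apply, ZeroMemClass.coe_zero, Derivation.coe_zero, Pi.zero_apply] at this ⊢
  linear_combination -this

lemma smul_p_inj {j : ℕ} {f g : A} (h : f • U.p j = g • U.p j) : f = g := by
  have := congrArg (fun d : U.L => d.1 (U.x j)) h
  simpa [U.one] using this

/-- The index `j` is not involved in `Y`. -/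
def Far (Y : U.L) (j : ℕ) : Prop := Y.1 (U.x j) = 0 ∧ U.br (U.p j) Y = 0

lemma eventually_far (Y : U.L) : ∀ᶠ j in atTop, Far Y j := by
  filter_upwards [U.far Y] with j hj
  exact ⟨hj.1, Subtype.ext hj.2⟩

lemma br_xp_of_far {Y : U.L} {j n : ℕ} (hj : Far Y j) (hn : Far Y n) :
    U.br (U.x j • U.p n) Y = 0 := by
  have := br_smul_left Y (U.p n) (U.x j)
  rw [hn.2, hj.1] at this
  simpa using this

lemma exists_kill (a : A) : ∃ j, (U.p j).1 a = 0 := by
  obtain ⟨j, h1, h2⟩ := ((eventually_far (U.p 0)).and (eventually_far (a • U.p 0))).exists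
  have h3 := br_smul_right (U.p j) (U.p 0) a
  rw [h1.2, h2.2, smul_zero, add_zero] at h3
  exact ⟨j, smul_p_inj (j := 0) (h3.symm.trans (zero_smul _ _).symm)⟩

lemma endo_id (U : St k A) (χ : A → A) (h1 : χ 1 = 1)
    (h : ∀ (Y : U.L) (g : A), χ (Y.1 g) = Y.1 (χ g)) (g : A) : χ g = g := by
  have h2 := h (g • U.p 0) (U.x 0)
  have h3 := h (U.p 0) (U.x 0)
  simp only [U.one, h1] at h3
  simp only [Submodule.coe_smul, Derivation.smul_apply, U.one, smul_eq_mul, mul_one, ← h3] at h2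
  exact h2

end One

/-- Bracket preserving linear isomorphisms. -/
structure Iso (U : St k A) (V : St k B) where
  e : U.L ≃ₗ[k] V.L
  hbr : ∀ x y, e (U.br x y) = V.br (e x) (e y)

variable {U : St k A} {V : St k B}

/-- The inverse isomorphism. -/
def Iso.symm (θ : Iso U V) : Iso V U where
  e := θ.e.symm
  hbr x y := by
    apply θ.e.injective
    rw [θ.hbr]
    simp

/-- The transported multiplication operator. -/
def T (θ : Iso U V) (f : B) (Y : U.L) : U.L := θ.e.symm (f • θ.e Y)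

lemma e_T (θ : Iso U V) (f : B) (Y : U.L) : θ.e (T θ f Y) = f • θ.e Y := by
  simp [T]

lemma stepA (θ : Iso U V) (f : B) (Z : U.L) (h0 : U.br Z (θ.e.symm (V.p 0)) = 0)
    (h1 : U.br Z (T θ f (θ.e.symm (V.p 0))) = 0) : (θ.e Z).1 f = 0 := by
  have h2 := congrArg θ.e h1
  rw [θ.hbr, e_T, br_smul_right, ← θ.hbr, h0] at h2
  simp only [map_zero, smul_zero, add_zero, LinearEquiv.apply_symm_apply] at h2
  exact smul_p_inj (j := 0) (h2.trans (zero_smul _ _).symm)

lemma br_T (θ : Iso U V) (f : B) (Z Y : U.L) (h : (θ.e Z).1 f = 0) :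
    U.br Z (T θ f Y) = T θ f (U.br Z Y) := by
  apply θ.e.injective
  rw [θ.hbr, e_T, e_T, br_smul_right, h, θ.hbr]
  simp

lemma stepB (θ : Iso U V) (f : B) : ∃ g : A, ∀ᶠ n in atTop, T θ f (U.p n) = g • U.p n := by
  have hS : ∀ᶠ j in atTop,
      Far (θ.e.symm (V.p 0)) j ∧ Far (T θ f (θ.e.symm (V.p 0))) j :=
    (eventually_far _).and (eventually_far _)
  obtain ⟨j, hj⟩ := hS.exists
  refine ⟨(T θ f (U.p j)).1 (U.x j), ?_⟩
  filter_upwards [hS, eventually_far (U.p j)] with n hk hn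
  have h1 : (θ.e (U.p n)).1 f = 0 := stepA θ f _ hk.1.2 hk.2.2
  have h2 : (θ.e (U.x j • U.p n)).1 f = 0 :=
    stepA θ f _ (br_xp_of_far hj.1 hk.1) (br_xp_of_far hj.2 hk.2)
  have h3 : U.br (U.p n) (T θ f (U.p j)) = 0 := by
    rw [br_T θ f _ _ h1, hn.2]
    simp [T]
  have h4 := br_T θ f _ (U.p j) h2
  have h5 := br_smul_left (T θ f (U.p j)) (U.p n) (U.x j)
  have h6 := br_smul_left (U.p j) (U.p n) (U.x j)
  rw [h3, h4] at h5
  rw [hn.2] at h6
  simp only [smul_zero, U.one, one_smul] at h5 h6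
  have h7 := congrArg (T θ f) h6
  have h8 : ∀ a b : U.L, T θ f (a + b) = T θ f a + T θ f b := by
    intro a b
    simp [T]
  have h9 : T θ f 0 = 0 := by simp [T]
  rw [h8, h9] at h7
  apply L_ext
  intro g
  have e1 := congrArg (fun d : U.L => d.1 g) h5
  have e2 := congrArg (fun d : U.L => d.1 g) h7
  simp only [Submodule.coe_add, Derivation.add_apply, ZeroMemClass.coe_zero, Derivation.coe_zero,
    Pi.zero_apply] at e1 e2
  linear_combination e2 - e1

/-- The underlying function of the induced map. -/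
def psi0 (θ : Iso U V) (f : B) : A := (stepB θ f).choose

lemma psi0_spec (θ : Iso U V) (f : B) : ∀ᶠ n in atTop, T θ f (U.p n) = psi0 θ f • U.p n :=
  (stepB θ f).choose_spec

lemma psi0_unique (θ : Iso U V) (f : B) (g : A)
    (h : ∀ᶠ n in atTop, T θ f (U.p n) = g • U.p n) : psi0 θ f = g := by
  obtain ⟨n, hk1, hk2⟩ := ((psi0_spec θ f).and h).exists
  exact smul_p_inj (hk1.symm.trans hk2)

/-- The induced linear map. -/
def psi (θ : Iso U V) : B →ₗ[k] A where
  toFun := psi0 θ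
  map_add' f g := by
    apply psi0_unique
    filter_upwards [psi0_spec θ f, psi0_spec θ g] with n h1 h2
    rw [add_smul, ← h1, ← h2]
    simp [T, add_smul]
  map_smul' c f := by
    apply psi0_unique
    filter_upwards [psi0_spec θ f] with n h1
    rw [RingHom.id_apply, smul_assoc, ← h1]
    simp [T, smul_assoc]

lemma psi_one (θ : Iso U V) : psi θ 1 = 1 := by
  apply psi0_unique
  filter_upwards with n
  simp [T]

lemma stepC (θ : Iso U V) (Y : U.L) (f : B) : psi θ ((θ.e Y).1 f) = Y.1 (psi θ f) := by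
  apply psi0_unique
  filter_upwards [psi0_spec θ f, eventually_far Y] with n h1 h2
  have h3 : U.br Y (U.p n) = 0 := br_swap h2.2
  have h4 := congrArg (U.br Y) h1
  rw [br_smul_right, h3] at h4
  simp only [smul_zero, add_zero] at h4
  change T θ ((θ.e Y).1 f) (U.p n) = Y.1 (psi0 θ f) • U.p n
  rw [← h4]
  apply θ.e.injective
  rw [θ.hbr, e_T, e_T, br_smul_right, ← θ.hbr, h3]
  simp

lemma stepC' (θ : Iso U V) (Y : U.L) (f : A) :
    psi θ.symm (Y.1 f) = (θ.e Y).1 (psi θ.symm f) := by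
  have := stepC θ.symm (θ.e Y) f
  simpa [Iso.symm] using this

lemma psi_psi_symm (θ : Iso U V) (g : A) : psi θ (psi θ.symm g) = g := by
  apply endo_id U (fun g => psi θ (psi θ.symm g))
  · simp [psi_one]
  · intro Y g
    rw [stepC', stepC]

lemma psi_symm_psi (θ : Iso U V) (g : B) : psi θ.symm (psi θ g) = g :=
  psi_psi_symm θ.symm g

lemma psi_symm_mul (θ : Iso U V) (a b : A) :
    psi θ.symm (a * b) = psi θ.symm a * psi θ.symm b := by
  have key : ∀ (Y : U.L) (a b : A),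
      Y.1 (psi θ (psi θ.symm a * psi θ.symm b)) =
        psi θ (psi θ.symm a * psi θ.symm (Y.1 b)) + psi θ (psi θ.symm b * psi θ.symm (Y.1 a)) := by
    intro Y a b
    rw [← stepC, Derivation.leibniz, stepC', stepC']
    simp
  obtain ⟨j, hja⟩ := exists_kill (U := U) a
  have h1 := key (b • U.p j) a (U.x j)
  have h2 := key (U.p j) a (U.x j)
  simp only [U.one, hja, map_zero, mul_zero, add_zero, psi_one, mul_one, psi_psi_symm] at h2
  simp only [Submodule.coe_smul, Derivation.smul_apply, U.one, smul_eq_mul,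
    mul_one, hja, mul_zero, map_zero, add_zero, h2] at h1
  rw [mul_comm a b, h1, psi_symm_psi]

/-- The induced algebra isomorphism. -/
def phi (θ : Iso U V) : A ≃ₐ[k] B :=
  AlgEquiv.ofLinearEquiv
    (LinearEquiv.ofLinearMap (psi θ.symm) (psi θ)
      (LinearMap.ext (psi_symm_psi θ)) (LinearMap.ext (psi_psi_symm θ)))
    (psi_one θ.symm) (psi_symm_mul θ)

theorem iso_main (θ : Iso U V) :
    ∃! φ : A ≃ₐ[k] B, ∀ (d : U.L) (f : B), (θ.e d).1 f = φ (d.1 (φ.symm f)) := by
  have hc : ∀ (d : U.L) (f : B), (θ.e d).1 f = phi θ (d.1 ((phi θ).symm f)) := by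
    intro d f
    change (θ.e d).1 f = psi θ.symm (d.1 (psi θ f))
    rw [stepC', psi_symm_psi]
  refine ⟨phi θ, hc, fun φ hφ => ?_⟩
  ext1 g
  apply (phi θ).symm.injective
  rw [AlgEquiv.symm_apply_apply]
  apply endo_id U (fun g => (phi θ).symm (φ g))
  · simp
  · intro Y g
    apply (phi θ).injective
    rw [AlgEquiv.apply_symm_apply, ← hc, hφ, AlgEquiv.symm_apply_apply]

theorem stable_main (L : Submodule A (Derivation k A A)) (M : Submodule B (Derivation k B B))
    (hL : Stable L) (hM : Stable M) (θ : L ≃ₗ[k] M)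
    (hθ : ∀ d e c : L, c.1 = ⁅d.1, e.1⁆ → (θ c).1 = ⁅(θ d).1, (θ e).1⁆) :
    ∃! φ : A ≃ₐ[k] B, ∀ (d : L) (f : B), (θ d).1 f = φ (d.1 (φ.symm f)) := by
  obtain ⟨l1, x, p, l2, l3⟩ := hL
  obtain ⟨m1, y, q, m2, m3⟩ := hM
  let U : St k A := ⟨L, l1, x, fun n => ⟨p n, (l2 n).1⟩, fun n => (l2 n).2,
    fun d => eventually_atTop.2 (l3 d.1 d.2)⟩
  let V : St k B := ⟨M, m1, y, fun n => ⟨q n, (m2 n).1⟩, fun n => (m2 n).2,
    fun d => eventually_atTop.2 (m3 d.1 d.2)⟩
  exact iso_main (U := U) (V := V) ⟨θ, fun d e => Subtype.ext (hθ d e _ rfl)⟩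

end

end Pool.Agent.WittInf
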