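import Mathlib

set_option autoImplicit false

namespace Pool.Agent.WittInf

/-- An `A`-submodule `L` of the `k`-derivations of `A` is stable if it is closed under the
commutator and there are `x n` in `A` and `p n` in `L` with `p n (x n) = 1` such that every
element of `L` kills `x n` and commutes with `p n` for all large `n`. -/
def Stable {k A : Type*} [CommRing k] [CommRing A] [Algebra k A]
    (L : Submodule A (Derivation k A A)) : Prop :=
  (∀ d ∈ L, ∀ e ∈ L, ⁅d, e⁆ ∈ L) ∧
    ∃ (x : ℕ → A) (p : ℕ → Derivation k A A), (∀ n, p n ∈ L ∧ p n (x n) = 1) ∧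
      ∀ d ∈ L, ∃ N : ℕ, ∀ n, N ≤ n → d (x n) = 0 ∧ ⁅p n, d⁆ = 0

end Pool.Agent.WittInf
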