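import Pool.Agent.P.MP_9d3c8a_al.Stab

set_option autoImplicit false

open Filter MvPolynomial

namespace Pool.Agent.WittInf

theorem stable_poly (k I : Type*) [CommRing k] [Infinite I]
    (L : Submodule (MvPolynomial I k) (Derivation k (MvPolynomial I k) (MvPolynomial I k)))
    (hL : ∀ d, d ∈ L ↔ Set.Finite {i : I | d (X i) ≠ 0}) : Stable L := by
  refine ⟨?_, fun n => X (Infinite.natEmbedding I n), fun n => pderiv (Infinite.natEmbedding I n),
    fun n => ⟨?_, by simp⟩, ?_⟩
  · intro d hd e he
    rw [hL] at *
    refine (Set.Finite.union hd he).subset ?_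
    intro i hi
    by_contra h
    simp only [Set.mem_union, Set.mem_ofPred_eq, not_or, not_not] at h
    apply hi
    simp [Derivation.commutator_apply, h.1, h.2]
  · rw [hL]
    refine (Set.finite_singleton (Infinite.natEmbedding I n)).subset ?_
    intro i hi
    by_contra h
    exact hi (pderiv_X_of_ne h)
  · intro d hd
    rw [hL] at hd
    have h1 : ∀ᶠ j in cofinite, d (X j) = 0 := by
      rw [Filter.eventually_cofinite]; exact hd
    have h2 : ∀ᶠ j in cofinite, ∀ i ∈ {i : I | d (X i) ≠ 0}, pderiv j (d (X i)) = 0 := by
      rw [Filter.eventually_all_finite hd]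
      intro i _
      rw [Filter.eventually_cofinite]
      refine (Finset.finite_toSet (d (X i)).vars).subset ?_
      intro j hj
      by_contra h
      exact hj (pderiv_eq_zero_of_notMem_vars h)
    have h3 := (Infinite.natEmbedding I).injective.tendsto_cofinite.eventually (h1.and h2)
    rw [Nat.cofinite_eq_atTop, eventually_atTop] at h3
    obtain ⟨N, hN⟩ := h3
    refine ⟨N, fun n hn => ⟨(hN n hn).1, ?_⟩⟩
    apply derivation_ext
    intro i
    have h4 : pderiv (Infinite.natEmbedding I n) (d (X i)) = 0 := by
      by_cases h : d (X i) = 0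
      · rw [h]; simp
      · exact (hN n hn).2 i h
    have h5 : d (pderiv (Infinite.natEmbedding I n) (X i : MvPolynomial I k)) = 0 := by
      by_cases h : i = Infinite.natEmbedding I n
      · subst h; simp
      · rw [pderiv_X_of_ne h]; simp
    rw [Derivation.commutator_apply, h4, h5]
    simp

end Pool.Agent.WittInf
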